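import Pool.Agent.H436.FP.Sch

set_option autoImplicit false

/-! # Potential density of families of fibre products of conic bundles

Let `k₀` be a field of characteristic zero and let `V` be the variety given by the `m` equations

`w_i² = a_i(x, t) y_i² + f_i(x, t)`,  `i = 1, ..., m`,

where `a_i`, `f_i` are nonzero polynomials over `k₀` in `x_1, ..., x_r, t_1, ..., t_n`. So `V` is a
fibre product of `m` conic bundles over the affine space. The `x`-variables may occur in all
polynomials, with any degrees. Each `t_j` occurs in at most one of `a_i` and `f_i`, for every `i`;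
let `d_ij` be its degree there (`0` if it does not occur in the equation number `i`). We suppose
that `t_j` occurs in at most three of the equations and `∑_i ⌈d_ij / 2⌉ ≤ 4`. So the nonzero degrees
of the equations in `t_j` can be `8`, or `6, 2`, or `4, 4`, or `4, 2, 2`.

There is a hypersurface `h(x, t) = 0` such that for all extensions `k` of `k₀`:

(1) If all `m` conics `X² = a_i(x, c) Y² + f_i(x, c) W²` have points over `k(x)` for some
`c ∈ k(x)^n` with `h(x, c) ≠ 0`, then all integral `k`-schemes birational to `V_k` are unirational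
and their `k`-points are dense.

(2) For `r = 1` this holds over some finite extension `k` of `k₀`: potential density.

(3) For `r = 0` the following are equivalent for every integral `k`-scheme `X` locally of finite
type which is birational to `V_k`: the `k`-points of `X` are dense; `X` is unirational; for some
`c ∈ k^n` with `h(c) ≠ 0` all `m` conics over `c` have `k`-points. So one point off a fixed
hypersurface suffices.
-/

open AlgebraicGeometry CategoryTheory W560.HP Pool.Agent.TH178.HI

namespace Pool.Agent.Results.MP_b62148_ag.FibreProductsOfConicBundles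

/-- `K` is the function field of the variety `w_i² = a_i(u) y_i² + f_i(u)`, `i = 1, ..., m`, over
`k` (the coordinates `u` and `y` are algebraically independent, and `u`, `y`, `w` generate `K`). -/
def IsFunctionField (k : Type) [Field k] {N m : ℕ} (a f : Fin m → MvPolynomial (Fin N) k)
    (K : Type) [Field K] [Algebra k K] : Prop :=
  ∃ (u : Fin N → K) (y w : Fin m → K), AlgebraicIndependent k (Sum.elim u y) ∧
    (∀ i, w i ^ 2 = MvPolynomial.aeval u (a i) * y i ^ 2 + MvPolynomial.aeval u (f i)) ∧
    IntermediateField.adjoin k (Set.range u ∪ (Set.range y ∪ Set.range w)) = ⊤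

/-- The integral scheme `X` over the extension `k` of `k₀` is birational to the variety `V_k`, where
`V` is given by the equations `w_i² = a_i(u) y_i² + f_i(u)` over `k₀`. -/
def IsModel {k₀ : Type} [Field k₀] (k : Type) [Field k] [Algebra k₀ k] {N m : ℕ}
    (a f : Fin m → MvPolynomial (Fin N) k₀) (X : Scheme.{0}) [IsIntegral X]
    (p : X ⟶ Spec (CommRingCat.of k)) : Prop :=
  ∃ (K : Type) (_ : Field K) (_ : Algebra k K),
    IsFunctionField k (fun i => MvPolynomial.map (algebraMap k₀ k) (a i))
      (fun i => MvPolynomial.map (algebraMap k₀ k) (f i)) K ∧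
    ∃ e : X.functionField ≃+* K, ∀ b : k, e (toFF k X p b) = algebraMap k K b

/-- The field `k(x_1, ..., x_r)` of rational functions. -/
abbrev RatField (r : ℕ) (k : Type) [Field k] : Type := FractionRing (MvPolynomial (Fin r) k)

/-- The value `p(x, c(x))` of the polynomial `p` in `x_1, ..., x_r, t_1, ..., t_n` at the rational
functions `c_1, ..., c_n` of `x_1, ..., x_r`. -/
noncomputable def valueAt {k₀ : Type} [Field k₀] {k : Type} [Field k] [Algebra k₀ k] {r n : ℕ}
    (c : Fin n → RatField r k) (p : MvPolynomial (Fin (r + n)) k₀) : RatField r k :=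
  MvPolynomial.aeval (Fin.append
    (fun i => algebraMap (MvPolynomial (Fin r) k) (RatField r k) (MvPolynomial.X i)) c) p

/-- For some rational functions `c_1, ..., c_n` of `x_1, ..., x_r` over `k` with `h(x, c(x)) ≠ 0`,
all the conics `X² = a_i(x, c(x)) Y² + f_i(x, c(x)) W²` have points over `k(x_1, ..., x_r)`. -/
def HasSplitSection {k₀ : Type} [Field k₀] (k : Type) [Field k] [Algebra k₀ k] {r n m : ℕ}
    (a f : Fin m → MvPolynomial (Fin (r + n)) k₀) (h : MvPolynomial (Fin (r + n)) k₀) : Prop :=
  ∃ c : Fin n → RatField r k, valueAt c h ≠ 0 ∧ ∀ i, ∃ X Y W : RatField r k,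
    ¬ (X = 0 ∧ Y = 0 ∧ W = 0) ∧ X ^ 2 = valueAt c (a i) * Y ^ 2 + valueAt c (f i) * W ^ 2

/-- For some `c ∈ k^N` with `h(c) ≠ 0` all the conics `X² = a_i(c) Y² + f_i(c) W²` have points over
`k`. -/
def HasGoodPoint {k₀ : Type} [Field k₀] (k : Type) [Field k] [Algebra k₀ k] {N m : ℕ}
    (a f : Fin m → MvPolynomial (Fin N) k₀) (h : MvPolynomial (Fin N) k₀) : Prop :=
  ∃ c : Fin N → k, MvPolynomial.aeval c h ≠ 0 ∧ ∀ i, ∃ X Y W : k,
    ¬ (X = 0 ∧ Y = 0 ∧ W = 0) ∧
      X ^ 2 = MvPolynomial.aeval c (a i) * Y ^ 2 + MvPolynomial.aeval c (f i) * W ^ 2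

/-- **Families of fibre products of conic bundles.** -/
theorem result (k₀ : Type) [Field k₀] [CharZero k₀] (r n m : ℕ)
    (a f : Fin m → MvPolynomial (Fin (r + n)) k₀) (ha : ∀ i, a i ≠ 0) (hf : ∀ i, f i ≠ 0)
    -- `t_j` occurs in at most one of `a_i` and `f_i`
    (hdis : ∀ (j : Fin n) (i : Fin m), MvPolynomial.degreeOf (Fin.natAdd r j) (a i) = 0 ∨
      MvPolynomial.degreeOf (Fin.natAdd r j) (f i) = 0)
    -- `t_j` occurs in at most three of the equations
    (h3 : ∀ j : Fin n, (Finset.univ.filter fun i => MvPolynomial.degreeOf (Fin.natAdd r j) (a i) +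
      MvPolynomial.degreeOf (Fin.natAdd r j) (f i) ≠ 0).card ≤ 3)
    -- the sum of the halves of the degrees in `t_j`, rounded up, is at most four
    (h4 : ∀ j : Fin n, ∑ i, (MvPolynomial.degreeOf (Fin.natAdd r j) (a i) +
      MvPolynomial.degreeOf (Fin.natAdd r j) (f i) + 1) / 2 ≤ 4) :
    (∃ h : MvPolynomial (Fin (r + n)) k₀, h ≠ 0 ∧
      ∀ (k : Type) [Field k] [CharZero k] [Algebra k₀ k] (X : Scheme.{0}) [IsIntegral X]
        (p : X ⟶ Spec (CommRingCat.of k)) [LocallyOfFiniteType p], IsModel k a f X p →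
        -- (1)
        (HasSplitSection k a f h → UnirationalScheme k X p ∧ DensePoints k X p) ∧
        -- (3)
        (r = 0 → [DensePoints k X p, HasGoodPoint k a f h, UnirationalScheme k X p].TFAE)) ∧
    -- (2)
    (r = 1 → ∃ (k : Type) (_ : Field k) (_ : Algebra k₀ k), FiniteDimensional k₀ k ∧
      ∀ (X : Scheme.{0}) [IsIntegral X] (p : X ⟶ Spec (CommRingCat.of k))
        [LocallyOfFiniteType p], IsModel k a f X p →
        UnirationalScheme k X p ∧ DensePoints k X p) := by
  have hT : Pool.Agent.H436.FP.TypR r a f := by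
    refine ⟨fun j i => ?_, h3, h4⟩
    rcases hdis j i with h | h
    · exact Or.inl fun h' => (MvPolynomial.mem_vars_iff_degreeOf_ne_zero.1 h') h
    · exact Or.inr fun h' => (MvPolynomial.mem_vars_iff_degreeOf_ne_zero.1 h') h
  obtain ⟨h, hh, h1⟩ := Pool.Agent.H436.FP.fam_uni ha hf hT
  refine ⟨⟨h, hh, fun k _ _ _ X _ p _ hX => ?_⟩, ?_⟩
  · obtain ⟨K, _, _, hK, e, he⟩ := hX
    refine ⟨fun hs => Pool.Agent.H436.FP.sch_uni (h1 k hs K hK) X p e he, ?_⟩
    rintro rfl
    tfae_have 1 → 2 := fun hd => by
      have h2 := Pool.Agent.H436.FP.point_of_pf (h := MvPolynomial.map (algebraMap k₀ k) h)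
        (Pool.Agent.H436.HQ.map_ne hh) hK (fun y => exists_place k X p hd K e he y)
      obtain ⟨c, hc, hs⟩ := h2
      have ev : ∀ g : MvPolynomial (Fin (0 + n)) k₀, MvPolynomial.eval c
          (MvPolynomial.map (algebraMap k₀ k) g) = MvPolynomial.aeval c g := fun g => by
        rw [MvPolynomial.eval_map, MvPolynomial.aeval_def]
      rw [ev] at hc
      refine ⟨c, hc, fun i => ?_⟩
      obtain ⟨x, y, w, h0, hx⟩ := hs i
      rw [ev, ev] at hx
      exact ⟨x, y, w, h0, hx⟩
    tfae_have 2 → 3 := fun hg =>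
      (Pool.Agent.H436.FP.sch_uni (h1 k (Pool.Agent.H436.FP.splitF_zero hg) K hK) X p e he).1
    tfae_have 3 → 1 := fun hu => Pool.Agent.H436.FP.dense_of_unis X p hu
    tfae_finish
  · rintro rfl
    obtain ⟨k, hfin, hs⟩ := Pool.Agent.H436.FP.exists_splitF (a := a) (f := f) hh
    have hc : CharZero k := charZero_of_injective_algebraMap (algebraMap k₀ k).injective
    refine ⟨k, inferInstance, inferInstance, hfin, fun X _ p _ hX => ?_⟩
    obtain ⟨K, _, _, hK, e, he⟩ := hX
    exact Pool.Agent.H436.FP.sch_uni (h1 k hs K hK) X p e he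

end Pool.Agent.Results.MP_b62148_ag.FibreProductsOfConicBundles
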